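import Pool.Agent.V5helper4.CM.Act

/-! # Project CM, job CST4: numbers -/

namespace Pool.Agent.V5helper4.CM

open Pool.Agent.V5helper32.CM MvPolynomial

/-- A module generated by finitely many elements over the polynomials in the members of `s`. -/
theorem integral_adjoin {P : Type} [CommRing P] [Algebra ℂ P] {k N : ℕ} (s : Set P)
    (g : Fin k → P) (hg : ∀ i, g i ∈ Algebra.adjoin ℂ s) (c : Fin N → P)
    (h : ∀ p : P, ∃ q : Fin N → MvPolynomial (Fin k) ℂ, p = ∑ j, aeval g (q j) * c j) :
    Algebra.IsIntegral (Algebra.adjoin ℂ s) P := by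
  have hm : ∀ q : MvPolynomial (Fin k) ℂ, aeval g q ∈ Algebra.adjoin ℂ s := by
    intro q
    have h1 : aeval g q ∈ (aeval g : MvPolynomial (Fin k) ℂ →ₐ[ℂ] P).range := ⟨q, rfl⟩
    rw [← Algebra.adjoin_range_eq_range_aeval] at h1
    refine Algebra.adjoin_le ?_ h1
    rintro _ ⟨i, rfl⟩
    exact hg i
  have : Module.Finite (Algebra.adjoin ℂ s) P := by
    classical
    refine ⟨⟨Finset.univ.image c, ?_⟩⟩
    rw [eq_top_iff]
    intro p _
    obtain ⟨q, rfl⟩ := h p
    apply Submodule.sum_mem
    intro j _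
    have h2 : aeval g (q j) * c j = (⟨aeval g (q j), hm (q j)⟩ : Algebra.adjoin ℂ s) • c j := rfl
    rw [h2]
    apply Submodule.smul_mem
    apply Submodule.subset_span
    simp
  exact Algebra.IsIntegral.of_finite _ _

variable {n : ℕ} {W : Type} [Group W] [Fintype W]

/-- the rank of the ring of invariants -/
theorem k_eq {k : ℕ} {D : Rd n W} (B : Bas D k) {N : ℕ} (c : Fin N → MvPolynomial (Fin n) ℂ)
    (hc : ∀ h, ∃! q : Fin N → MvPolynomial (Fin k) ℂ, h = ∑ j, aeval B.f (q j) * c j) :
    k = n := by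
  have h1 : Algebra.IsIntegral (Algebra.adjoin ℂ (Set.range B.f)) (MvPolynomial (Fin n) ℂ) :=
    integral_adjoin _ B.f (fun i => Algebra.subset_adjoin ⟨i, rfl⟩) c fun p => (hc p).exists
  have h2 : IsTranscendenceBasis ℂ B.f :=
    B.ind.isTranscendenceBasis_iff_isAlgebraic.2 inferInstance
  have h3 := (IsTranscendenceBasis.mvPolynomial (Fin n) ℂ).cardinalMk_eq h2
  simpa using h3.symm

/-- the fixed space -/
theorem fix_le {k : ℕ} {D : Rd n W} (B : Bas D k) {N : ℕ} (c : Fin N → MvPolynomial (Fin n) ℂ)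
    (hc : ∀ h, ∃! q : Fin N → MvPolynomial (Fin k) ℂ, h = ∑ j, aeval B.f (q j) * c j) :
    Module.finrank ℂ (LinearMap.ker (Matrix.toLin' (D.t.val - 1))) ≤
      Nat.card {i // B.ζ i = 1} := by
  classical
  set U := LinearMap.ker (Matrix.toLin' (D.t.val - 1)) with hU
  set u := Module.finrank ℂ U with hu
  let b : Module.Basis (Fin u) ℂ U := Module.finBasis ℂ U
  -- the restriction
  let φ : MvPolynomial (Fin n) ℂ →ₐ[ℂ] MvPolynomial (Fin u) ℂ :=
    aeval fun i => ∑ j, C ((b j : Fin n → ℂ) i) * X j
  have hφ : ∀ (y : Fin u → ℂ) (f : MvPolynomial (Fin n) ℂ),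
      eval y (φ f) = eval ((∑ j, y j • b j : U) : Fin n → ℂ) f := by
    intro y f
    have h : (aeval y : MvPolynomial (Fin u) ℂ →ₐ[ℂ] ℂ).comp φ =
        aeval ((∑ j, y j • b j : U) : Fin n → ℂ) := by
      apply MvPolynomial.algHom_ext
      intro i
      simp [φ, mul_comm]
    have := DFunLike.congr_fun h f
    simpa [MvPolynomial.aeval_eq_eval] using this
  -- surjectivity
  have hsurj : Function.Surjective φ := by
    obtain ⟨r, hr⟩ := (U.subtype).exists_leftInverse_of_injective (Submodule.ker_subtype U)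
    have hr' : ∀ x : U, r (x : Fin n → ℂ) = x := fun x => DFunLike.congr_fun hr x
    have hX : ∀ j, X j ∈ φ.range := by
      intro j
      refine ⟨∑ i, C (b.repr (r (Pi.single i 1)) j) * X i, ?_⟩
      apply MvPolynomial.funext
      intro y
      change eval y (φ _) = _
      rw [hφ]
      set z : U := ∑ j, y j • b j with hz
      have h1 : eval (z : Fin n → ℂ) (∑ i, C (b.repr (r (Pi.single i 1)) j) * X i) =
          b.repr (r (z : Fin n → ℂ)) j := by
        have h2 : (z : Fin n → ℂ) = ∑ i, (z : Fin n → ℂ) i • (Pi.single i 1 : Fin n → ℂ) := by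
          funext i
          simp [Finset.sum_apply, Pi.single_apply]
        conv_rhs => rw [h2]
        simp [map_sum, map_smul, mul_comm]
      rw [h1, hr', hz, map_sum]
      simp [Finsupp.single_apply]
    have : φ.range = ⊤ := by
      rw [eq_top_iff, ← MvPolynomial.adjoin_range_X]
      apply Algebra.adjoin_le
      rintro _ ⟨j, rfl⟩
      exact hX j
    exact (AlgHom.range_eq_top φ).1 this
  -- the invariants with eigenvalue different from one vanish on the fixed space
  have hvan : ∀ i, B.ζ i ≠ 1 → φ (B.f i) = 0 := by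
    intro i hi
    apply MvPolynomial.funext
    intro y
    rw [hφ, map_zero]
    set z : U := ∑ j, y j • b j with hz
    have hz1 : (D.t.val).mulVec (z : Fin n → ℂ) = z := by
      have hz0 : (z : Fin n → ℂ) ∈ LinearMap.ker (Matrix.toLin' (D.t.val - 1)) := z.2
      rw [LinearMap.mem_ker, Matrix.toLin'_apply, Matrix.sub_mulVec, Matrix.one_mulVec,
        sub_eq_zero] at hz0
      exact hz0
    have hz2 : (D.t⁻¹).val.mulVec (z : Fin n → ℂ) = z := by
      conv_lhs => rw [← hz1]
      rw [Matrix.mulVec_mulVec, ← Units.val_mul, inv_mul_cancel, Units.val_one, Matrix.one_mulVec]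
    have h1 := congrArg (eval (z : Fin n → ℂ)) (B.eig i)
    rw [eval_act, hz2, smul_eval] at h1
    by_contra h2
    apply hi
    have : (B.ζ i - 1) * eval (z : Fin n → ℂ) (B.f i) = 0 := by
      rw [sub_mul, one_mul, ← h1, sub_self]
    rcases mul_eq_zero.1 this with h3 | h3
    · exact sub_eq_zero.1 h3
    · exact absurd h3 h2
  set s : Set (MvPolynomial (Fin u) ℂ) := Set.range fun i : {i // B.ζ i = 1} => φ (B.f i) with hs
  have h1 : Algebra.IsIntegral (Algebra.adjoin ℂ s) (MvPolynomial (Fin u) ℂ) := by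
    refine integral_adjoin s (fun i => φ (B.f i)) ?_ (fun j => φ (c j)) ?_
    · intro i
      by_cases hi : B.ζ i = 1
      · exact Algebra.subset_adjoin ⟨⟨i, hi⟩, rfl⟩
      · rw [hvan i hi]
        exact Subalgebra.zero_mem _
    · intro p
      obtain ⟨h, rfl⟩ := hsurj p
      obtain ⟨q, hq⟩ := (hc h).exists
      refine ⟨q, ?_⟩
      conv_lhs => rw [hq]
      rw [map_sum]
      refine Finset.sum_congr rfl fun j _ => ?_
      rw [map_mul]
      congr 1
      have : φ.comp (aeval B.f) = aeval fun i => φ (B.f i) := by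
        apply MvPolynomial.algHom_ext
        intro i
        simp
      exact DFunLike.congr_fun this (q j)
  have h2 := Algebra.IsAlgebraic.trdeg_le_cardinalMk ℂ s
  rw [MvPolynomial.trdeg_of_isDomain] at h2
  have h3 : Cardinal.mk s ≤ Cardinal.mk {i // B.ζ i = 1} := Cardinal.mk_range_le
  have h4 := h2.trans h3
  have h5 : (u : Cardinal.{0}) ≤ (Nat.card {i // B.ζ i = 1} : Cardinal.{0}) := by
    simpa using h4
  exact_mod_cast h5

/-- invariants at the points of an orbit -/
theorem eval_inv {D : Rd n W} {h : MvPolynomial (Fin n) ℂ} (hi : IsInv D h) (u : W)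
    (x : Fin n → ℂ) : eval ((D.ρ u).val.mulVec x) h = eval x h := by
  have := congrArg (eval x) (hi u⁻¹)
  rw [eval_act, map_inv, inv_inv] at this
  exact this

/-- the rank over the invariants is at least the order of the group -/
theorem card_le {k : ℕ} {D : Rd n W} (B : Bas D k) {N : ℕ} (c : Fin N → MvPolynomial (Fin n) ℂ)
    (hc : ∀ h, ∃! q : Fin N → MvPolynomial (Fin k) ℂ, h = ∑ j, aeval B.f (q j) * c j) :
    Fintype.card W ≤ N := by
  let T : (Fin N → ℂ) →ₗ[ℂ] (W → ℂ) :=
    { toFun := fun s u => ∑ j, s j * eval ((D.ρ u).val.mulVec D.v) (c j)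
      map_add' := by
        intro a b
        funext u
        simp [add_mul, Finset.sum_add_distrib]
      map_smul' := by
        intro a b
        funext u
        simp [mul_assoc, Finset.mul_sum] }
  have hT : Function.Surjective T := by
    intro φ
    obtain ⟨h, hh⟩ := interp (fun u : W => (D.ρ u).val.mulVec D.v)
      (fun u u' e => orbit_inj D e) φ
    obtain ⟨q, hq⟩ := (hc h).exists
    refine ⟨fun j => eval D.v (aeval B.f (q j)), ?_⟩
    funext u
    change ∑ j, eval D.v (aeval B.f (q j)) * eval ((D.ρ u).val.mulVec D.v) (c j) = φ u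
    rw [← hh u, hq, map_sum]
    refine Finset.sum_congr rfl fun j _ => ?_
    rw [map_mul]
    congr 1
    rw [eval_inv]
    intro w
    have : (act (D.ρ w)).comp (aeval B.f) = aeval B.f := by
      apply MvPolynomial.algHom_ext
      intro i
      simp [B.inv i w]
    exact DFunLike.congr_fun this (q j)
  have := LinearMap.finrank_le_finrank_of_surjective hT
  simpa using this

/-- the rank over the invariants is at most the order of the group -/
theorem le_card {k : ℕ} {D : Rd n W} (B : Bas D k) {N : ℕ} (c : Fin N → MvPolynomial (Fin n) ℂ)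
    (hc : ∀ h, ∃! q : Fin N → MvPolynomial (Fin k) ℂ, h = ∑ j, aeval B.f (q j) * c j) :
    N ≤ Fintype.card W := by
  classical
  by_contra hN
  let T : (Fin N → MvPolynomial (Fin n) ℂ) →ₗ[MvPolynomial (Fin n) ℂ]
      (W → MvPolynomial (Fin n) ℂ) :=
    { toFun := fun a w => ∑ j, a j * act (D.ρ w) (c j)
      map_add' := by
        intro a b
        funext u
        simp [add_mul, Finset.sum_add_distrib]
      map_smul' := by
        intro a b
        funext u
        simp [mul_assoc, Finset.mul_sum] }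
  have hT : ¬ Function.Injective T := by
    intro h
    have := card_le_of_injective (MvPolynomial (Fin n) ℂ) T h
    simp at this
    exact hN this
  rw [← LinearMap.ker_eq_bot, Submodule.eq_bot_iff] at hT
  push Not at hT
  obtain ⟨a, ha, ha0⟩ := hT
  have ha' : ∀ w, ∑ j, a j * act (D.ρ w) (c j) = 0 := fun w => congrFun ha w
  obtain ⟨j0, hj0⟩ := Function.ne_iff.1 ha0
  -- the averages vanish
  have hb : ∀ (g : MvPolynomial (Fin n) ℂ) (j : Fin N),
      ∑ w, act (D.ρ w⁻¹) (g * a j) = 0 := by
    intro g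
    have hinv : ∀ j, IsInv D (∑ w, act (D.ρ w⁻¹) (g * a j)) := by
      intro j w
      rw [map_sum]
      refine Fintype.sum_equiv (Equiv.mulRight w⁻¹) _ _ fun w' => ?_
      rw [← act_mul, ← map_mul]
      congr 3
      simp [mul_inv_rev]
    have hrel : ∑ j, (∑ w, act (D.ρ w⁻¹) (g * a j)) * c j = 0 := by
      simp_rw [Finset.sum_mul]
      rw [Finset.sum_comm]
      apply Finset.sum_eq_zero
      intro w _
      have h1 : act (D.ρ w⁻¹) (g * ∑ j, a j * act (D.ρ w) (c j)) = 0 := by
        rw [ha', mul_zero, map_zero]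
      rw [Finset.mul_sum, map_sum] at h1
      rw [← h1]
      refine Finset.sum_congr rfl fun j _ => ?_
      rw [← mul_assoc, map_mul (act (D.ρ w⁻¹)) (g * a j), ← act_mul, ← map_mul, inv_mul_cancel,
        map_one, act_one]
    choose q hq using fun j => B.gen _ (hinv j)
    have h0 : q = 0 := by
      obtain ⟨q', _, hq'⟩ := hc 0
      rw [hq' q, hq' 0]
      · simp
      · change 0 = ∑ j, aeval B.f (q j) * c j
        rw [← hrel]
        exact Finset.sum_congr rfl fun j _ => by rw [← hq j]
    intro j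
    rw [hq j, h0]
    simp
  -- Dedekind
  have hli := linearIndependent_monoidHom (MvPolynomial (Fin n) ℂ) (MvPolynomial (Fin n) ℂ)
  let χ : W → (MvPolynomial (Fin n) ℂ →* MvPolynomial (Fin n) ℂ) := fun w =>
    (act (D.ρ w⁻¹) : MvPolynomial (Fin n) ℂ →ₐ[ℂ] MvPolynomial (Fin n) ℂ)
  have hχ : Function.Injective χ := by
    intro w w' e
    have e1 : act (D.ρ w⁻¹) = act (D.ρ w'⁻¹) := by
      apply AlgHom.ext
      intro f
      exact DFunLike.congr_fun e f
    have e2 := act_inj (v := D.v) e1
    rw [← map_inv, ← map_inv, inv_inv, inv_inv] at e2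
    exact orbit_inj D e2
  have hli2 := Fintype.linearIndependent_iff.1 (hli.comp χ hχ) (fun w => act (D.ρ w⁻¹) (a j0))
    (by
      funext g
      simp only [Finset.sum_apply, Pi.smul_apply, Function.comp, smul_eq_mul, Pi.zero_apply]
      rw [← hb g j0]
      refine Finset.sum_congr rfl fun w _ => ?_
      rw [mul_comm g, map_mul]
      rfl) 1
  rw [inv_one, map_one, act_one] at hli2
  exact hj0 hli2

theorem t_CST4 : S_CST4 := by
  intro n W _ _ D k B N c hc
  exact ⟨k_eq B c hc, le_antisymm (le_card B c hc) (card_le B c hc), fix_le B c hc⟩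

end Pool.Agent.V5helper4.CM
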