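import Pool.Agent.V5helper4.CM.CST4

/-! # Project CM, job CST5: the coinvariants are the regular representation -/

namespace Pool.Agent.V5helper4.CM

open Pool.Agent.V5helper32.CM MvPolynomial

variable {n : ℕ}

section Graded

attribute [local instance] MvPolynomial.gradedAlgebra

theorem comp_mul {d e : ℕ} (a : MvPolynomial (Fin n) ℂ) {f : MvPolynomial (Fin n) ℂ}
    (hf : f.IsHomogeneous d) :
    homogeneousComponent e (a * f) = if d ≤ e then homogeneousComponent (e - d) a * f else 0 := by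
  have h1 : ∀ (x : MvPolynomial (Fin n) ℂ) (i : ℕ),
      (DirectSum.decompose (homogeneousSubmodule (Fin n) ℂ) x i : MvPolynomial (Fin n) ℂ) =
        homogeneousComponent i x := fun x i => decomposition.decompose'_apply x i
  have := DirectSum.coe_decompose_mul_of_right_mem (homogeneousSubmodule (Fin n) ℂ) e (a := a)
    (b := f) (i := d) ((mem_homogeneousSubmodule _ _).2 hf)
  rw [h1, h1] at this
  exact this

theorem span_homog {k : ℕ} (f : Fin k → MvPolynomial (Fin n) ℂ) (d : Fin k → ℕ)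
    (hf : ∀ i, (f i).IsHomogeneous (d i)) :
    (Ideal.span (Set.range f)).IsHomogeneous (homogeneousSubmodule (Fin n) ℂ) := by
  apply Ideal.homogeneous_span
  rintro _ ⟨i, rfl⟩
  exact ⟨d i, (mem_homogeneousSubmodule _ _).2 (hf i)⟩

theorem comp_mem {k : ℕ} (f : Fin k → MvPolynomial (Fin n) ℂ) (d : Fin k → ℕ)
    (hf : ∀ i, (f i).IsHomogeneous (d i)) {h : MvPolynomial (Fin n) ℂ}
    (hh : h ∈ Ideal.span (Set.range f)) (e : ℕ) :
    homogeneousComponent e h ∈ Ideal.span (Set.range f) :=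
  homogeneousComponent_mem_of_mem (span_homog f d hf) hh e

end Graded

theorem homog_gens {k : ℕ} (f : Fin k → MvPolynomial (Fin n) ℂ) (d : Fin k → ℕ)
    (hf : ∀ i, (f i).IsHomogeneous (d i)) {h : MvPolynomial (Fin n) ℂ} {e : ℕ}
    (he : h.IsHomogeneous e) (hh : h ∈ Ideal.span (Set.range f)) :
    ∃ g : Fin k → MvPolynomial (Fin n) ℂ, (∀ i, (g i).IsHomogeneous (e - d i)) ∧
      (∀ i, e < d i → g i = 0) ∧ h = ∑ i, g i * f i := by
  obtain ⟨a, ha⟩ := Ideal.mem_span_range_iff_exists_fun.1 hh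
  refine ⟨fun i => if d i ≤ e then homogeneousComponent (e - d i) (a i) else 0, ?_, ?_, ?_⟩
  · intro i
    dsimp only
    split_ifs
    · exact homogeneousComponent_isHomogeneous _ _
    · exact isHomogeneous_zero _ _ _
  · intro i hi
    exact if_neg (not_le.2 hi)
  · have h1 := congrArg (homogeneousComponent e) ha
    rw [homogeneousComponent_eq_self he, map_sum] at h1
    rw [← h1]
    refine Finset.sum_congr rfl fun i _ => ?_
    rw [comp_mul _ (hf i)]
    dsimp only
    split_ifs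
    · rfl
    · rw [zero_mul]

/-- A graded projection onto the ideal `I`. -/
def Pj (I : Ideal (MvPolynomial (Fin n) ℂ))
    (p : MvPolynomial (Fin n) ℂ →ₗ[ℂ] MvPolynomial (Fin n) ℂ) : Prop :=
  ∀ (e : ℕ) (h : MvPolynomial (Fin n) ℂ), h.IsHomogeneous e →
    p h ∈ I ∧ (p h).IsHomogeneous e ∧ (h ∈ I → p h = h)

theorem exists_Pj (I : Ideal (MvPolynomial (Fin n) ℂ)) : ∃ p, Pj I p := by
  classical
  have h1 : ∀ e : ℕ, ∃ r : MvPolynomial (Fin n) ℂ →ₗ[ℂ]
      ((I.restrictScalars ℂ ⊓ homogeneousSubmodule (Fin n) ℂ e : Submodule ℂ _)),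
      ∀ x : (I.restrictScalars ℂ ⊓ homogeneousSubmodule (Fin n) ℂ e : Submodule ℂ _),
        r (x : MvPolynomial (Fin n) ℂ) = x := by
    intro e
    obtain ⟨r, hr⟩ := ((I.restrictScalars ℂ ⊓ homogeneousSubmodule (Fin n) ℂ e :
      Submodule ℂ _).subtype).exists_leftInverse_of_injective (Submodule.ker_subtype _)
    exact ⟨r, fun x => DFunLike.congr_fun hr x⟩
  choose r hr using h1
  let p : MvPolynomial (Fin n) ℂ →ₗ[ℂ] MvPolynomial (Fin n) ℂ :=
    (basisMonomials (Fin n) ℂ).constr ℂ fun s => (r s.degree (monomial s 1) : MvPolynomial (Fin n) ℂ)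
  have hp : ∀ s : Fin n →₀ ℕ, p (monomial s 1) = r s.degree (monomial s 1) := by
    intro s
    have := (basisMonomials (Fin n) ℂ).constr_basis ℂ
      (fun s => (r s.degree (monomial s 1) : MvPolynomial (Fin n) ℂ)) s
    simpa [coe_basisMonomials] using this
  have hph : ∀ (e : ℕ) (h : MvPolynomial (Fin n) ℂ), h.IsHomogeneous e → p h = r e h := by
    intro e h he
    conv_lhs => rw [h.as_sum]
    conv_rhs => rw [h.as_sum]
    rw [map_sum, map_sum, Submodule.coe_sum]
    refine Finset.sum_congr rfl fun s hs => ?_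
    have h2 : s.degree = e := by
      by_contra h3
      exact (mem_support_iff.1 hs) (he.coeff_eq_zero h3)
    have h3 : (monomial s (coeff s h) : MvPolynomial (Fin n) ℂ) = coeff s h • monomial s 1 := by
      rw [smul_monomial, smul_eq_mul, mul_one]
    rw [h3, map_smul, map_smul, hp, h2]
    rfl
  refine ⟨p, fun e h he => ?_⟩
  rw [hph e h he]
  have h4 := (r e h).2
  refine ⟨h4.1, (mem_homogeneousSubmodule _ _).1 h4.2, fun hI => ?_⟩
  have := hr e ⟨h, hI, (mem_homogeneousSubmodule _ _).2 he⟩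
  exact congrArg Subtype.val this

/-- conjugation -/
noncomputable def cj (g : Gl n) (p : MvPolynomial (Fin n) ℂ →ₗ[ℂ] MvPolynomial (Fin n) ℂ) :
    MvPolynomial (Fin n) ℂ →ₗ[ℂ] MvPolynomial (Fin n) ℂ :=
  (act g).toLinearMap ∘ₗ p ∘ₗ (act g⁻¹).toLinearMap

theorem cj_apply (g : Gl n) (p : MvPolynomial (Fin n) ℂ →ₗ[ℂ] MvPolynomial (Fin n) ℂ)
    (h : MvPolynomial (Fin n) ℂ) : cj g p h = act g (p (act g⁻¹ h)) := rfl

theorem cj_mul (g g' : Gl n) (p : MvPolynomial (Fin n) ℂ →ₗ[ℂ] MvPolynomial (Fin n) ℂ) :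
    cj (g * g') p = cj g (cj g' p) := by
  apply LinearMap.ext
  intro h
  simp only [cj_apply, mul_inv_rev, act_mul]

theorem cj_one (p : MvPolynomial (Fin n) ℂ →ₗ[ℂ] MvPolynomial (Fin n) ℂ) : cj 1 p = p := by
  apply LinearMap.ext
  intro h
  simp only [cj_apply, inv_one, act_one]

theorem cj_sum {ι : Type*} (s : Finset ι) (g : Gl n)
    (q : ι → MvPolynomial (Fin n) ℂ →ₗ[ℂ] MvPolynomial (Fin n) ℂ) (a : ℂ) :
    cj g (a • ∑ i ∈ s, q i) = a • ∑ i ∈ s, cj g (q i) := by
  apply LinearMap.ext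
  intro h
  simp only [cj_apply, LinearMap.smul_apply, LinearMap.sum_apply, map_smul, map_sum]

theorem Pj.conj {I : Ideal (MvPolynomial (Fin n) ℂ)}
    {p : MvPolynomial (Fin n) ℂ →ₗ[ℂ] MvPolynomial (Fin n) ℂ} (hp : Pj I p) {g : Gl n}
    (hg : ∀ h ∈ I, act g h ∈ I) (hg' : ∀ h ∈ I, act g⁻¹ h ∈ I) : Pj I (cj g p) := by
  intro e h he
  obtain ⟨h1, h2, h3⟩ := hp e (act g⁻¹ h) (act_hom _ he)
  refine ⟨hg _ h1, act_hom _ h2, fun hI => ?_⟩
  rw [cj_apply, h3 (hg' _ hI), ← act_mul, mul_inv_cancel, act_one]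

theorem Pj.avg {I : Ideal (MvPolynomial (Fin n) ℂ)} {ι : Type*} (s : Finset ι) (hs : s.Nonempty)
    (q : ι → MvPolynomial (Fin n) ℂ →ₗ[ℂ] MvPolynomial (Fin n) ℂ) (hq : ∀ i, Pj I (q i)) :
    Pj I (((s.card : ℂ)⁻¹) • ∑ i ∈ s, q i) := by
  intro e h he
  rw [LinearMap.smul_apply, LinearMap.sum_apply]
  have hc : ((s.card : ℂ)) ≠ 0 := by
    exact_mod_cast (Finset.card_pos.2 hs).ne'
  refine ⟨?_, ?_, fun hI => ?_⟩
  · rw [smul_eq_C_mul]
    apply Ideal.mul_mem_left
    exact Ideal.sum_mem _ fun i _ => (hq i e h he).1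
  · rw [smul_eq_C_mul]
    apply IsHomogeneous.C_mul
    exact IsHomogeneous.sum _ _ _ fun i _ => (hq i e h he).2.1
  · rw [Finset.sum_congr rfl fun i _ => (hq i e h he).2.2 hI, Finset.sum_const, ← Nat.cast_smul_eq_nsmul ℂ,
      smul_smul, inv_mul_cancel₀ hc, one_smul]

theorem Pj.all {k : ℕ} {f : Fin k → MvPolynomial (Fin n) ℂ} {d : Fin k → ℕ}
    (hf : ∀ i, (f i).IsHomogeneous (d i))
    {p : MvPolynomial (Fin n) ℂ →ₗ[ℂ] MvPolynomial (Fin n) ℂ}
    (hp : Pj (Ideal.span (Set.range f)) p) (h : MvPolynomial (Fin n) ℂ) :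
    p h ∈ Ideal.span (Set.range f) ∧ (h ∈ Ideal.span (Set.range f) → p h = h) := by
  have h1 : p h = ∑ i ∈ Finset.range (h.totalDegree + 1), p (homogeneousComponent i h) := by
    rw [← map_sum, sum_homogeneousComponent]
  constructor
  · rw [h1]
    exact Ideal.sum_mem _ fun i _ => (hp i _ (homogeneousComponent_isHomogeneous _ _)).1
  · intro hI
    rw [h1]
    conv_rhs => rw [← sum_homogeneousComponent h]
    exact Finset.sum_congr rfl fun i _ =>
      (hp i _ (homogeneousComponent_isHomogeneous _ _)).2.2 (comp_mem f d hf hI i)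

variable {W : Type} [Group W] [Fintype W]

theorem rho_t_pow (D : Rd n W) (w : W) : ∀ k : ℕ, ∃ w', D.ρ w * D.t ^ k = D.t ^ k * D.ρ w' := by
  intro k
  induction k with
  | zero => exact ⟨w, by simp⟩
  | succ k ih =>
    obtain ⟨w', hw'⟩ := ih
    refine ⟨D.θ.symm w', ?_⟩
    have h1 := D.tρ (D.θ.symm w')
    rw [MulEquiv.apply_symm_apply] at h1
    rw [pow_succ, ← mul_assoc, hw', mul_assoc, mul_assoc, h1]
    group

/-- an equivariant graded projection -/
theorem exists_equi (D : Rd n W) {k : ℕ} (B : Bas D k) :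
    ∃ p : MvPolynomial (Fin n) ℂ →ₗ[ℂ] MvPolynomial (Fin n) ℂ,
      Pj (Ideal.span (Set.range B.f)) p ∧ (∀ w h, p (act (D.ρ w) h) = act (D.ρ w) (p h)) ∧
        ∀ h, p (act D.t h) = act D.t (p h) := by
  classical
  set I := Ideal.span (Set.range B.f) with hI
  have key : ∀ g : Gl n, (∀ i, act g (B.f i) ∈ I) → ∀ h ∈ I, act g h ∈ I := by
    intro g hg h hh
    have : I ≤ I.comap (act g).toRingHom := by
      rw [hI, Ideal.span_le]
      rintro _ ⟨i, rfl⟩
      exact hg i
    exact this hh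
  have hfI : ∀ i, B.f i ∈ I := fun i => Ideal.subset_span ⟨i, rfl⟩
  have hW : ∀ w, ∀ h ∈ I, act (D.ρ w) h ∈ I := fun w => key _ fun i => by
    rw [B.inv i w]
    exact hfI i
  have ht : ∀ h ∈ I, act D.t h ∈ I := key _ fun i => by
    rw [B.eig i, smul_eq_C_mul]
    exact Ideal.mul_mem_left _ _ (hfI i)
  have htk : ∀ k : ℕ, ∀ h ∈ I, act (D.t ^ k) h ∈ I := by
    intro k
    induction k with
    | zero => intro h hh; rw [pow_zero, act_one]; exact hh
    | succ k ih => intro h hh; rw [pow_succ, act_mul]; exact ih _ (ht _ hh)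
  have htk' : ∀ k : ℕ, ∀ h ∈ I, act (D.t ^ k)⁻¹ h ∈ I := by
    intro k h hh
    have : (D.t ^ k)⁻¹ = D.t ^ (D.m * k - k) := by
      rw [inv_eq_iff_mul_eq_one, ← pow_add]
      have : k + (D.m * k - k) = D.m * k :=
        Nat.add_sub_cancel' (Nat.le_mul_of_pos_left k D.mpos)
      rw [this, pow_mul, D.tm, one_pow]
    rw [this]
    exact htk _ h hh
  obtain ⟨p0, hp0⟩ := exists_Pj I
  obtain ⟨p1, hp1⟩ : ∃ p1, p1 = (((Finset.univ : Finset W).card : ℂ)⁻¹) • ∑ w : W, cj (D.ρ w) p0 :=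
    ⟨_, rfl⟩
  have hp1P : Pj I p1 := by
    rw [hp1]
    apply Pj.avg _ Finset.univ_nonempty
    intro w
    refine hp0.conj (hW w) ?_
    rw [← map_inv]
    exact hW w⁻¹
  have hp1W : ∀ w, cj (D.ρ w) p1 = p1 := by
    intro w
    rw [hp1, cj_sum]
    refine congrArg (fun z => (((Finset.univ : Finset W).card : ℂ)⁻¹) • z) ?_
    refine Fintype.sum_equiv (Equiv.mulLeft w) _ _ fun w' => ?_
    rw [← cj_mul, ← map_mul, Equiv.coe_mulLeft]
  obtain ⟨p, hp⟩ : ∃ p, p = (((Finset.range D.m).card : ℂ)⁻¹) • ∑ k ∈ Finset.range D.m,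
    cj (D.t ^ k) p1 := ⟨_, rfl⟩
  have hpP : Pj I p := by
    rw [hp]
    apply Pj.avg _ (Finset.nonempty_range_iff.2 D.mpos.ne')
    intro k
    exact hp1P.conj (htk k) (htk' k)
  have hpW : ∀ w, cj (D.ρ w) p = p := by
    intro w
    rw [hp, cj_sum]
    refine congrArg (fun z => (((Finset.range D.m).card : ℂ)⁻¹) • z) ?_
    refine Finset.sum_congr rfl fun k _ => ?_
    obtain ⟨w', hw'⟩ := rho_t_pow D w k
    rw [← cj_mul, hw', cj_mul, hp1W]
  have hpt : cj D.t p = p := by
    rw [hp, cj_sum]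
    refine congrArg (fun z => (((Finset.range D.m).card : ℂ)⁻¹) • z) ?_
    have h1 : ∀ k, cj D.t (cj (D.t ^ k) p1) = cj (D.t ^ (k + 1)) p1 := by
      intro k
      rw [← cj_mul, ← pow_succ']
    simp_rw [h1]
    have h2 := Finset.sum_range_succ (fun k => cj (D.t ^ k) p1) D.m
    have h3 := Finset.sum_range_succ' (fun k => cj (D.t ^ k) p1) D.m
    rw [h2, D.tm, pow_zero] at h3
    exact (add_right_cancel h3).symm
  have hcomm : ∀ g : Gl n, cj g p = p → ∀ h, p (act g h) = act g (p h) := by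
    intro g hg h
    conv_lhs => rw [← hg]
    rw [cj_apply, ← act_mul, inv_mul_cancel, act_one]
  exact ⟨p, hpP, fun w => hcomm _ (hpW w), hcomm _ hpt⟩

/-- every function on the orbit is given by an element of the complement -/
theorem orbit_fun (D : Rd n W) {k : ℕ} (B : Bas D k)
    {p : MvPolynomial (Fin n) ℂ →ₗ[ℂ] MvPolynomial (Fin n) ℂ}
    (hp : Pj (Ideal.span (Set.range B.f)) p) :
    ∀ (e : ℕ) (h : MvPolynomial (Fin n) ℂ), h.IsHomogeneous e → ∃ c, ∀ u : W,
      eval ((D.ρ u).val.mulVec D.v) h = eval ((D.ρ u).val.mulVec D.v) (c - p c) := by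
  intro e
  induction e using Nat.strong_induction_on with
  | _ e ih =>
    intro h he
    obtain ⟨h1, h2, -⟩ := hp e h he
    obtain ⟨g, hg1, hg2, hg3⟩ := homog_gens B.f B.d B.hom h2 h1
    have h4 : ∀ i, ∃ c, ∀ u : W,
        eval ((D.ρ u).val.mulVec D.v) (g i) = eval ((D.ρ u).val.mulVec D.v) (c - p c) := by
      intro i
      by_cases hi : e < B.d i
      · refine ⟨0, fun u => ?_⟩
        rw [hg2 i hi]
        simp
      · exact ih (e - B.d i) (Nat.sub_lt (lt_of_lt_of_le (B.dpos i) (not_lt.1 hi)) (B.dpos i)) _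
          (hg1 i)
    choose c hc using h4
    refine ⟨h + ∑ i, eval D.v (B.f i) • c i, fun u => ?_⟩
    have h5 : eval ((D.ρ u).val.mulVec D.v) (p h) =
        ∑ i, eval D.v (B.f i) * eval ((D.ρ u).val.mulVec D.v) (c i - p (c i)) := by
      rw [hg3, map_sum]
      refine Finset.sum_congr rfl fun i _ => ?_
      rw [map_mul, hc i u, eval_inv (B.inv i), mul_comm]
    have h6 : h + ∑ i, eval D.v (B.f i) • c i - p (h + ∑ i, eval D.v (B.f i) • c i) =
        (h - p h) + ∑ i, eval D.v (B.f i) • (c i - p (c i)) := by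
      rw [map_add, map_sum]
      simp_rw [map_smul, smul_sub]
      rw [Finset.sum_sub_distrib]
      ring
    rw [h6, map_add, map_sub, h5, map_sum]
    simp_rw [smul_eval]
    ring

/-- the dimension of the coinvariants -/
theorem finrank_quot {k : ℕ} (f : Fin k → MvPolynomial (Fin n) ℂ) {N : ℕ}
    (c : Fin N → MvPolynomial (Fin n) ℂ)
    (hc : ∀ h, ∃ q : Fin N → MvPolynomial (Fin k) ℂ, h = ∑ j, aeval f (q j) * c j) :
    FiniteDimensional ℂ (MvPolynomial (Fin n) ℂ ⧸
        (Ideal.span (Set.range f)).restrictScalars ℂ) ∧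
      Module.finrank ℂ (MvPolynomial (Fin n) ℂ ⧸
        (Ideal.span (Set.range f)).restrictScalars ℂ) ≤ N := by
  set J := (Ideal.span (Set.range f)).restrictScalars ℂ with hJ
  let S : (Fin N → ℂ) →ₗ[ℂ] (MvPolynomial (Fin n) ℂ ⧸ J) :=
    { toFun := fun s => ∑ j, s j • J.mkQ (c j)
      map_add' := by
        intro a b
        simp [add_smul, Finset.sum_add_distrib]
      map_smul' := by
        intro a b
        simp [mul_smul, Finset.smul_sum] }
  have hS : Function.Surjective S := by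
    intro x
    obtain ⟨h, rfl⟩ := J.mkQ_surjective x
    obtain ⟨q, hq⟩ := hc h
    refine ⟨fun j => constantCoeff (q j), ?_⟩
    change ∑ j, constantCoeff (q j) • J.mkQ (c j) = J.mkQ h
    conv_rhs => rw [hq, map_sum]
    refine Finset.sum_congr rfl fun j _ => ?_
    rw [← map_smul, ← sub_eq_zero, ← map_sub]
    rw [Submodule.mkQ_apply, Submodule.Quotient.mk_eq_zero, hJ, Submodule.restrictScalars_mem,
      smul_eq_C_mul, ← sub_mul]
    apply Ideal.mul_mem_right
    rw [← Ideal.Quotient.eq_zero_iff_mem, map_sub, sub_eq_zero]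
    have h1 : (Ideal.Quotient.mkₐ ℂ (Ideal.span (Set.range f))).comp (aeval f) =
        aeval (fun _ => 0) := by
      apply MvPolynomial.algHom_ext
      intro i
      simp only [AlgHom.comp_apply, aeval_X, Ideal.Quotient.mkₐ_eq_mk]
      exact Ideal.Quotient.eq_zero_iff_mem.2 (Ideal.subset_span ⟨i, rfl⟩)
    have h2 := DFunLike.congr_fun h1 (q j)
    simp only [AlgHom.comp_apply, Ideal.Quotient.mkₐ_eq_mk] at h2
    rw [h2]
    have h3 : aeval (fun _ => (0 : MvPolynomial (Fin n) ℂ ⧸ Ideal.span (Set.range f))) (q j) =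
        algebraMap ℂ _ (constantCoeff (q j)) := by
      have := MvPolynomial.aeval_zero' (S₁ := MvPolynomial (Fin n) ℂ ⧸ Ideal.span (Set.range f))
        (p := q j)
      exact this
    rw [h3]
    rfl
  refine ⟨Module.Finite.of_surjective S hS, ?_⟩
  have := LinearMap.finrank_le_finrank_of_surjective hS
  simpa using this

theorem t_CST5 (h2 : S_CST2) (h3 : S_CST3) (h4 : S_CST4) : S_CST5 := by
  intro n W _ _ D
  obtain ⟨k, ⟨B⟩⟩ := h2 n W D
  obtain ⟨N, c, hch, hc⟩ := h3 n W D k B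
  obtain ⟨hk, hN, hd⟩ := h4 n W D k B N c hc
  subst hk
  obtain ⟨p, hpP, hpW, hpt⟩ := exists_equi D B
  have hpA := Pj.all B.hom hpP
  let Ψ : MvPolynomial (Fin k) ℂ →ₗ[ℂ] (W → ℂ) :=
    { toFun := fun h u => eval ((D.ρ u).val.mulVec D.v) (h - p h)
      map_add' := by
        intro a b
        funext u
        simp only [map_add, map_sub, Pi.add_apply]
        ring
      map_smul' := by
        intro a b
        funext u
        simp only [map_smul, map_sub, Pi.smul_apply, smul_eval, RingHom.id_apply, smul_eq_mul]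
        ring }
  have hΨ : ∀ h u, Ψ h u = eval ((D.ρ u).val.mulVec D.v) (h - p h) := fun h u => rfl
  have hsurj : Function.Surjective Ψ := by
    intro φ
    obtain ⟨h, hh⟩ := interp (fun u : W => (D.ρ u).val.mulVec D.v)
      (fun u u' e => orbit_inj D e) φ
    choose c' hc' using fun i => orbit_fun D B hpP i (homogeneousComponent i h)
      (homogeneousComponent_isHomogeneous _ _)
    refine ⟨∑ i ∈ Finset.range (h.totalDegree + 1), c' i, ?_⟩
    funext u
    rw [hΨ, map_sum, ← Finset.sum_sub_distrib, map_sum, ← hh u]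
    conv_rhs => rw [← sum_homogeneousComponent h, map_sum]
    exact Finset.sum_congr rfl fun i _ => (hc' i u).symm
  have hkill : ∀ h ∈ Ideal.span (Set.range B.f), Ψ h = 0 := by
    intro h hh
    funext u
    rw [hΨ, (hpA h).2 hh, sub_self, map_zero]
    rfl
  obtain ⟨hfd, hfr⟩ := finrank_quot B.f c fun h => (hc h).exists
  have hker : ∀ h, Ψ h = 0 → h ∈ Ideal.span (Set.range B.f) := by
    intro h hh
    let J := (Ideal.span (Set.range B.f)).restrictScalars ℂ
    have hJ : J ≤ LinearMap.ker Ψ := fun x hx => hkill x hx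
    let Ψ' : (MvPolynomial (Fin k) ℂ ⧸ J) →ₗ[ℂ] (W → ℂ) := J.liftQ Ψ hJ
    have hs' : Function.Surjective Ψ' := by
      intro φ
      obtain ⟨h, hh⟩ := hsurj φ
      exact ⟨J.mkQ h, by rw [← hh]; rfl⟩
    have h5 : Module.finrank ℂ (MvPolynomial (Fin k) ℂ ⧸ J) = Module.finrank ℂ (W → ℂ) := by
      apply le_antisymm
      · rw [Module.finrank_fintype_fun_eq_card, ← hN]
        exact hfr
      · exact LinearMap.finrank_le_finrank_of_surjective hs'
    have hinj : Function.Injective Ψ' :=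
      (LinearMap.injective_iff_surjective_of_finrank_eq_finrank h5).2 hs'
    have h6 : Ψ' (J.mkQ h) = 0 := hh
    have h7 : J.mkQ h = 0 := hinj (by rw [h6, map_zero])
    rw [Submodule.mkQ_apply, Submodule.Quotient.mk_eq_zero] at h7
    exact h7
  refine ⟨{ f := B.f, d := B.d, ζ := B.ζ, hom := B.hom, dpos := B.dpos, inv := B.inv,
            eig := B.eig, N := N, c := c, chom := hch, free := hc, Ψ := Ψ, surj := hsurj,
            ker := fun h => ⟨hker h, hkill h⟩, Ψw := ?_, Ψt := ?_, dim := hd }⟩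
  · intro w h u
    rw [hΨ, hΨ, hpW, ← map_sub, eval_act, Matrix.mulVec_mulVec, ← Units.val_mul, ← map_inv,
      ← map_mul]
  · intro h u
    rw [hΨ, hΨ, hpt, ← map_sub, eval_act]
    congr 2
    have h8 := D.tρ (D.θ.symm u)
    rw [MulEquiv.apply_symm_apply] at h8
    have h9 : D.t⁻¹ * D.ρ u = D.ρ (D.θ.symm u) * D.t⁻¹ := by
      rw [h8]
      group
    have h10 : (D.t⁻¹).val.mulVec D.v = D.v := by
      conv_lhs => rw [← D.tv]
      rw [Matrix.mulVec_mulVec, ← Units.val_mul, inv_mul_cancel, Units.val_one, Matrix.one_mulVec]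
    rw [Matrix.mulVec_mulVec, ← Units.val_mul, h9, Units.val_mul, ← Matrix.mulVec_mulVec, h10]

end Pool.Agent.V5helper4.CM
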