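import Pool.Agent.V5helper32.CM.Stm

/-! # Project CM: the action on polynomials, evaluation -/

namespace Pool.Agent.V5helper4.CM

open Pool.Agent.V5helper32.CM MvPolynomial

variable {n : ℕ}

theorem eval_act (g : Gl n) (x : Fin n → ℂ) (f : MvPolynomial (Fin n) ℂ) :
    eval x (act g f) = eval ((g⁻¹).val.mulVec x) f := by
  have h : (aeval x : MvPolynomial (Fin n) ℂ →ₐ[ℂ] ℂ).comp (act g) =
      aeval ((g⁻¹).val.mulVec x) := by
    apply MvPolynomial.algHom_ext
    intro i
    simp [act, Matrix.mulVec, dotProduct]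
  have := DFunLike.congr_fun h f
  simpa [MvPolynomial.aeval_eq_eval] using this

theorem act_mul (g h : Gl n) (f : MvPolynomial (Fin n) ℂ) : act (g * h) f = act g (act h f) := by
  apply MvPolynomial.funext
  intro x
  rw [eval_act, eval_act, eval_act, mul_inv_rev, Units.val_mul, Matrix.mulVec_mulVec]

theorem act_one (f : MvPolynomial (Fin n) ℂ) : act (1 : Gl n) f = f := by
  apply MvPolynomial.funext
  intro x
  rw [eval_act]
  simp

theorem act_inj {g h : Gl n} {v : Fin n → ℂ} (e : act g = act h) :
    (g⁻¹).val.mulVec v = (h⁻¹).val.mulVec v := by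
  funext i
  have := congrArg (eval v) (DFunLike.congr_fun e (X i))
  rw [eval_act, eval_act] at this
  simpa using this

/-- The action preserves homogeneous polynomials. -/
theorem act_hom (g : Gl n) {f : MvPolynomial (Fin n) ℂ} {e : ℕ} (h : f.IsHomogeneous e) :
    (act g f).IsHomogeneous e := by
  have := h.aeval (fun i => ∑ j, C ((g⁻¹).val i j) * X j) (n := 1) (by
    intro i
    apply MvPolynomial.IsHomogeneous.sum
    intro j _
    have := (isHomogeneous_C (Fin n) ((g⁻¹).val i j)).mul (isHomogeneous_X ℂ j)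
    simpa using this)
  simpa [act] using this

/-- The points of a free orbit. -/
theorem orbit_inj {W : Type} [Group W] [Fintype W] (D : Rd n W) {u u' : W}
    (h : (D.ρ u).val.mulVec D.v = (D.ρ u').val.mulVec D.v) : u = u' := by
  have : (D.ρ (u'⁻¹ * u)).val.mulVec D.v = D.v := by
    rw [map_mul, Units.val_mul, ← Matrix.mulVec_mulVec, h, Matrix.mulVec_mulVec, ← Units.val_mul,
      ← map_mul, inv_mul_cancel, map_one, Units.val_one, Matrix.one_mulVec]
  have := D.vreg _ this
  exact (inv_mul_eq_one.1 this).symm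

/-- Interpolation. -/
theorem interp {A : Type*} [Fintype A] (p : A → Fin n → ℂ) (hp : Function.Injective p)
    (φ : A → ℂ) : ∃ h : MvPolynomial (Fin n) ℂ, ∀ a, eval (p a) h = φ a := by
  classical
  have h1 : ∀ a b : A, ∃ l : MvPolynomial (Fin n) ℂ, a ≠ b → eval (p a) l = 1 ∧ eval (p b) l = 0 := by
    intro a b
    by_cases hab : a = b
    · exact ⟨0, fun h => absurd hab h⟩
    · have : p a ≠ p b := fun h => hab (hp h)
      obtain ⟨i, hi⟩ := Function.ne_iff.1 this
      refine ⟨C ((p a i - p b i)⁻¹) * (X i - C (p b i)), fun _ => ⟨?_, ?_⟩⟩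
      · simp
        exact inv_mul_cancel₀ (sub_ne_zero.2 hi)
      · simp
  choose l hl using h1
  refine ⟨∑ a, C (φ a) * ∏ b ∈ Finset.univ.erase a, l a b, ?_⟩
  intro a
  rw [map_sum, Finset.sum_eq_single a]
  · rw [map_mul, map_prod, eval_C]
    rw [Finset.prod_eq_one, mul_one]
    intro b hb
    exact (hl a b (Finset.ne_of_mem_erase hb).symm).1
  · intro b _ hb
    rw [map_mul, map_prod]
    rw [Finset.prod_eq_zero (i := a), mul_zero]
    · exact Finset.mem_erase.2 ⟨hb.symm, Finset.mem_univ _⟩
    · exact (hl b a hb).2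
  · intro h
    exact absurd (Finset.mem_univ _) h

end Pool.Agent.V5helper4.CM
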